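import Pool.Agent.D0H61.AB.Stm

/-!
# The family `B` (module 9 FAM of the project AB)

The index set is `Fin l × Fin m`; for the index `(a, i)` the prime is taken from the `i`-th block of
`#PJ j / m` primes of `PJ j`, `j = l + 1 + a`, and the exponent from `[E, 2 E]`.
-/

set_option autoImplicit false

namespace Pool.Agent.D0H8.AB

open Finset Pool.Agent.D0H61.AB

theorem fac {ι : Type} [Fintype ι] [DecidableEq ι] (p e : ι → ℕ) (hp : ∀ i, (p i).Prime) (r : ℕ) :
    (∏ i, p i ^ e i).factorization r = ∑ i, if p i = r then e i else 0 := by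
  rw [Nat.factorization_prod (fun i _ => pow_ne_zero _ (hp i).ne_zero), Finsupp.finsetSum_apply]
  refine Finset.sum_congr rfl fun i _ => ?_
  rw [(hp i).factorization_pow, Finsupp.single_apply]

theorem fac_at {ι : Type} [Fintype ι] [DecidableEq ι] (p e : ι → ℕ) (hp : ∀ i, (p i).Prime)
    (hi : Function.Injective p) (i : ι) : (∏ i, p i ^ e i).factorization (p i) = e i := by
  rw [fac p e hp, Finset.sum_eq_single i]
  · simp
  · intro k _ hk
    rw [if_neg fun h => hk (hi h)]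
  · intro h
    exact absurd (Finset.mem_univ i) h

theorem mem_of_fac {ι : Type} [Fintype ι] [DecidableEq ι] (p e : ι → ℕ) (hp : ∀ i, (p i).Prime)
    {r : ℕ} (h : (∏ i, p i ^ e i).factorization r ≠ 0) : ∃ i, p i = r := by
  rw [fac p e hp] at h
  obtain ⟨i, -, hi⟩ := Finset.exists_ne_zero_of_sum_ne_zero h
  by_contra hc
  push Not at hc
  exact hi (if_neg (hc i))

theorem fam_core {ι : Type} [Fintype ι] [DecidableEq ι] (w : ι → ℕ) (q : ι → ℕ → ℕ) (E : ℕ)
    (hE : 1 ≤ E) (hq : ∀ i, ∀ x < w i, (q i x).Prime)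
    (hinj : ∀ i, ∀ x < w i, ∀ i', ∀ x' < w i', q i x = q i' x' → i = i' ∧ x = x') :
    ∃ B : Finset ℕ, B.card = ∏ i, (w i * (E + 1)) ∧
      ∀ b ∈ B, ∃ x e : ι → ℕ, (∀ i, x i < w i ∧ E ≤ e i ∧ e i ≤ 2 * E) ∧
        b = ∏ i, q i (x i) ^ e i := by
  classical
  obtain ⟨S, hS⟩ : ∃ S : ι → Finset (ℕ × ℕ), S = fun i => range (w i) ×ˢ Icc E (2 * E) := ⟨_, rfl⟩
  obtain ⟨F, hF⟩ : ∃ F : (ι → ℕ × ℕ) → ℕ, F = fun φ => ∏ i, q i (φ i).1 ^ (φ i).2 := ⟨_, rfl⟩
  have hmem : ∀ φ, φ ∈ Fintype.piFinset S ↔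
      ∀ i, (φ i).1 < w i ∧ E ≤ (φ i).2 ∧ (φ i).2 ≤ 2 * E := by
    intro φ
    rw [Fintype.mem_piFinset]
    simp only [hS, mem_product, mem_range, mem_Icc]
  refine ⟨(Fintype.piFinset S).image F, ?_, ?_⟩
  · rw [Finset.card_image_of_injOn, Fintype.card_piFinset]
    · refine Finset.prod_congr rfl fun i _ => ?_
      rw [hS]
      simp only [card_product, card_range, Nat.card_Icc]
      congr 1
      omega
    · intro φ hφ ψ hψ h
      have hφ := (hmem φ).1 (mem_coe.1 hφ)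
      have hψ := (hmem ψ).1 (mem_coe.1 hψ)
      have hpφ : ∀ i, (q i (φ i).1).Prime := fun i => hq i _ (hφ i).1
      have hpψ : ∀ i, (q i (ψ i).1).Prime := fun i => hq i _ (hψ i).1
      have hiφ : Function.Injective fun i => q i (φ i).1 := fun i k hik =>
        (hinj i _ (hφ i).1 k _ (hφ k).1 hik).1
      have hiψ : Function.Injective fun i => q i (ψ i).1 := fun i k hik =>
        (hinj i _ (hψ i).1 k _ (hψ k).1 hik).1
      funext i
      have h1 := fac_at (fun i => q i (φ i).1) (fun i => (φ i).2) hpφ hiφ i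
      have h0 : (∏ i, q i (φ i).1 ^ (φ i).2) = ∏ i, q i (ψ i).1 ^ (ψ i).2 := by
        simpa only [hF] using h
      rw [h0] at h1
      have h2 := (hφ i).2.1
      obtain ⟨k, hk⟩ := mem_of_fac (fun i => q i (ψ i).1) (fun i => (ψ i).2) hpψ
        (r := q i (φ i).1) (by rw [h1]; omega)
      have h3 := hinj k _ (hψ k).1 i _ (hφ i).1 hk
      obtain ⟨h4, h5⟩ := h3
      subst h4
      have h6 := fac_at (fun i => q i (ψ i).1) (fun i => (ψ i).2) hpψ hiψ k
      rw [h5, h1] at h6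
      exact Prod.ext h5.symm h6
  · intro b hb
    obtain ⟨φ, hφ, rfl⟩ := mem_image.1 hb
    exact ⟨fun i => (φ i).1, fun i => (φ i).2, (hmem φ).1 hφ, by rw [hF]⟩

/-- An enumeration of a finite set of naturals. -/
theorem enum (S : Finset ℕ) : ∃ f : ℕ → ℕ, (∀ x < S.card, f x ∈ S) ∧
    ∀ x < S.card, ∀ y < S.card, f x = f y → x = y := by
  classical
  refine ⟨fun x => if h : x < S.card then (S.equivFin.symm ⟨x, h⟩ : ℕ) else 0, ?_, ?_⟩
  · intro x hx
    simp only [dif_pos hx]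
    exact (S.equivFin.symm ⟨x, hx⟩).2
  · intro x hx y hy h
    simp only [dif_pos hx, dif_pos hy] at h
    have h1 := S.equivFin.symm.injective (Subtype.ext h)
    exact congrArg Fin.val h1

theorem mem_PJ {j p : ℕ} (h : p ∈ PJ j) :
    p.Prime ∧ Real.exp ((j : ℝ) - 1) < p ∧ (p : ℝ) ≤ Real.exp j := by
  rw [PJ, mem_filter, mem_Icc] at h
  exact ⟨h.2.1, h.2.2, (Nat.le_floor_iff (Real.exp_pos _).le).1 h.1.2⟩

theorem PJ_disj {j j' p : ℕ} (h : p ∈ PJ j) (h' : p ∈ PJ j') : j = j' := by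
  have h1 := mem_PJ h
  have h2 := mem_PJ h'
  have h3 := Real.exp_lt_exp.1 (h1.2.1.trans_le h2.2.2)
  have h4 := Real.exp_lt_exp.1 (h2.2.1.trans_le h1.2.2)
  have h5 : (j : ℝ) < ((j' + 1 : ℕ) : ℝ) := by
    push_cast
    linarith
  have h6 : (j' : ℝ) < ((j + 1 : ℕ) : ℝ) := by
    push_cast
    linarith
  have h7 := Nat.cast_lt.1 h5
  have h8 := Nat.cast_lt.1 h6
  omega

/-- The properties of one member. -/
theorem member {ι : Type} [Fintype ι] [DecidableEq ι] (p e : ι → ℕ) (hp : ∀ i, (p i).Prime)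
    (hi : Function.Injective p) (he : ∀ i, 8 ≤ e i) {T : ℝ} (hT : ∀ i, T < p i) :
    0 < (∏ i, p i ^ e i) ∧ (∏ i, p i ^ e i).primeFactors.card ≤ Fintype.card ι ∧
      (∀ r ∈ (∏ i, p i ^ e i).primeFactors, T < r ∧ 8 ≤ (∏ i, p i ^ e i).factorization r) ∧
      rad (∏ i, p i ^ e i) ≤ ∏ i, p i := by
  classical
  have hsub : (∏ i, p i ^ e i).primeFactors ⊆ univ.image p := by
    intro r hr
    have h1 : (∏ i, p i ^ e i).factorization r ≠ 0 := by
      rw [← Nat.support_factorization] at hr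
      exact Finsupp.mem_support_iff.1 hr
    obtain ⟨i, hi'⟩ := mem_of_fac p e hp h1
    exact mem_image.2 ⟨i, mem_univ i, hi'⟩
  refine ⟨Finset.prod_pos fun i _ => pow_pos (hp i).pos _, ?_, ?_, ?_⟩
  · exact (card_le_card hsub).trans card_image_le
  · intro r hr
    obtain ⟨i, -, rfl⟩ := mem_image.1 (hsub hr)
    rw [fac_at p e hp hi i]
    exact ⟨hT i, he i⟩
  · rw [rad]
    calc ∏ r ∈ (∏ i, p i ^ e i).primeFactors, r ≤ ∏ r ∈ univ.image p, r := by
          refine Finset.prod_le_prod_of_subset_of_one_le' hsub fun r hr _ => ?_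
          obtain ⟨i, -, rfl⟩ := mem_image.1 hr
          exact (hp i).one_lt.le
      _ = ∏ i, p i := by
          rw [Finset.prod_image fun i _ k _ h => hi h]

/-- The numerical conditions for one block. -/
theorem block {c c₁ T eⱼ : ℝ} {l j m π E : ℕ} (hc : 0 < c) (hc₁ : 0 < c₁) (hcc : c₁ ^ 2 ≤ c / 48)
    (hT : 0 < T) (hej : 0 < eⱼ) (hl : 0 < l) (hj : 0 < j) (hj2 : j ≤ 2 * l) (hm : 0 < m)
    (hmT : (m : ℝ) ≤ c₁ * T / l ^ 2) (hET : T / (4 * c₁ * l) ≤ (E : ℝ) + 1)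
    (hπ : c * eⱼ / j ≤ (π : ℝ)) (h2 : 2 * m ≤ π) :
    eⱼ * Real.exp 1 ≤ ((π / m : ℕ) : ℝ) * ((E : ℝ) + 1) := by
  have hlR : (0 : ℝ) < l := Nat.cast_pos.2 hl
  have hjR : (0 : ℝ) < j := Nat.cast_pos.2 hj
  have hmR : (0 : ℝ) < m := Nat.cast_pos.2 hm
  have h1 : π ≤ 2 * (m * (π / m)) := by
    have h3 := Nat.lt_mul_div_succ π hm
    have h4 : m * (π / m + 1) = m * (π / m) + m := by ring
    omega
  have h1R : (π : ℝ) ≤ 2 * (m * ((π / m : ℕ) : ℝ)) := by exact_mod_cast h1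
  obtain ⟨W, hW⟩ : ∃ W : ℝ, W = ((π / m : ℕ) : ℝ) := ⟨_, rfl⟩
  rw [← hW] at h1R ⊢
  have hW0 : 0 ≤ W := by
    rw [hW]
    exact Nat.cast_nonneg _
  have h5 : c * eⱼ / (2 * l) ≤ π := by
    refine le_trans ?_ hπ
    have h6 : (j : ℝ) ≤ 2 * l := by exact_mod_cast hj2
    exact div_le_div_of_nonneg_left (by positivity) hjR h6
  have h7 : c * eⱼ / (2 * l) ≤ 2 * ((c₁ * T / l ^ 2) * W) := by
    refine (h5.trans h1R).trans ?_
    have h8 : (m : ℝ) * W ≤ (c₁ * T / l ^ 2) * W := mul_le_mul_of_nonneg_right hmT hW0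
    linarith
  have h9 : c * eⱼ * l / (4 * c₁ * T) ≤ W := by
    rw [div_le_iff₀ (by positivity)]
    have h10 := mul_le_mul_of_nonneg_right h7 (show (0 : ℝ) ≤ 2 * l * l by positivity)
    have h11 : c * eⱼ / (2 * l) * (2 * l * l) = c * eⱼ * l := by
      field_simp
    have h12 : 2 * ((c₁ * T / l ^ 2) * W) * (2 * l * l) = W * (4 * c₁ * T) := by
      field_simp
      ring
    rw [h11, h12] at h10
    exact h10
  have h13 : (c * eⱼ * l / (4 * c₁ * T)) * (T / (4 * c₁ * l)) ≤ W * ((E : ℝ) + 1) :=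
    mul_le_mul h9 hET (by positivity) hW0
  have h14 : (c * eⱼ * l / (4 * c₁ * T)) * (T / (4 * c₁ * l)) = c * eⱼ / (16 * c₁ ^ 2) := by
    field_simp
    ring
  rw [h14] at h13
  refine le_trans ?_ h13
  rw [le_div_iff₀ (by positivity)]
  have h15 : Real.exp 1 < 3 := by
    have := Real.exp_one_lt_d9
    linarith
  have h16 : Real.exp 1 * (16 * c₁ ^ 2) ≤ c := by
    have h17 : Real.exp 1 * (16 * c₁ ^ 2) ≤ 3 * (16 * c₁ ^ 2) :=
      mul_le_mul_of_nonneg_right h15.le (by positivity)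
    linarith
  calc eⱼ * Real.exp 1 * (16 * c₁ ^ 2) = eⱼ * (Real.exp 1 * (16 * c₁ ^ 2)) := by ring
    _ ≤ eⱼ * c := mul_le_mul_of_nonneg_left h16 hej.le
    _ = c * eⱼ := by ring

theorem t_FAM : S_CHEB → S_FAM := by
  classical
  rintro ⟨c, hc, j₀, hj₀, hch⟩
  obtain ⟨c₁, hc₁⟩ : ∃ c₁ : ℝ, c₁ = min (1 / 6) (c / 8) := ⟨_, rfl⟩
  have h1 : 0 < c₁ := by
    rw [hc₁]
    exact lt_min (by norm_num) (by linarith)
  have h2 : c₁ ≤ 1 / 6 := by
    rw [hc₁]
    exact min_le_left _ _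
  have h3 : c₁ ≤ c / 8 := by
    rw [hc₁]
    exact min_le_right _ _
  have hcc : c₁ ^ 2 ≤ c / 48 := by
    nlinarith
  refine ⟨c₁ / 2, by positivity, j₀ + 6 + ⌈12 / c₁⌉₊ + ⌈4 * c₁ / c⌉₊, by omega, ?_⟩
  intro l hl
  have hl6 : 6 ≤ l := by omega
  have hlj : j₀ ≤ l := by omega
  have hl12 : 12 / c₁ ≤ l := by
    refine (Nat.le_ceil _).trans ?_
    exact_mod_cast (show ⌈12 / c₁⌉₊ ≤ l by omega)
  have hl4 : 4 * c₁ / c ≤ l := by
    refine (Nat.le_ceil _).trans ?_
    exact_mod_cast (show ⌈4 * c₁ / c⌉₊ ≤ l by omega)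
  have hl6R : (6 : ℝ) ≤ l := by exact_mod_cast hl6
  have hl0 : (0 : ℝ) < l := by linarith
  obtain ⟨T, hT⟩ : ∃ T : ℝ, T = Real.exp l := ⟨_, rfl⟩
  have hT0 : 0 < T := by
    rw [hT]
    exact Real.exp_pos _
  have hT3 : (l : ℝ) ^ 3 / 6 ≤ T := by
    have h4 := Real.pow_div_factorial_le_exp (l : ℝ) hl0.le 3
    rw [hT]
    simpa [Nat.factorial] using h4
  have hm1 : 2 ≤ c₁ * T / (l : ℝ) ^ 2 := by
    rw [le_div_iff₀ (by positivity)]
    have h5 : 12 ≤ (l : ℝ) * c₁ := (div_le_iff₀ h1).1 hl12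
    have h6 : c₁ * ((l : ℝ) ^ 3 / 6) ≤ c₁ * T := mul_le_mul_of_nonneg_left hT3 h1.le
    nlinarith [mul_le_mul_of_nonneg_right h5 (sq_nonneg (l : ℝ))]
  obtain ⟨m, hm⟩ : ∃ m : ℕ, m = ⌊c₁ * T / (l : ℝ) ^ 2⌋₊ := ⟨_, rfl⟩
  have hmle : (m : ℝ) ≤ c₁ * T / (l : ℝ) ^ 2 := by
    rw [hm]
    exact Nat.floor_le (by positivity)
  have hmge : c₁ * T / (l : ℝ) ^ 2 / 2 ≤ (m : ℝ) := by
    have h7 := Nat.lt_floor_add_one (c₁ * T / (l : ℝ) ^ 2)
    rw [← hm] at h7
    linarith
  have hm0 : 0 < m := by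
    have h8 : (0 : ℝ) < m := by linarith
    exact_mod_cast h8
  obtain ⟨E, hE⟩ : ∃ E : ℕ, E = ⌊T / (4 * c₁ * l)⌋₊ := ⟨_, rfl⟩
  have hEle : (E : ℝ) ≤ T / (4 * c₁ * l) := by
    rw [hE]
    exact Nat.floor_le (by positivity)
  have hEge : T / (4 * c₁ * l) ≤ (E : ℝ) + 1 := by
    rw [hE]
    exact (Nat.lt_floor_add_one _).le
  have hE8 : 8 ≤ E := by
    rw [hE]
    refine Nat.le_floor ?_
    rw [le_div_iff₀ (by positivity)]
    push_cast
    have h9 : 8 * (4 * c₁ * l) ≤ 8 * l := by nlinarith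
    nlinarith [mul_le_mul hl6R hl6R (by norm_num) hl0.le]
  have hn : ((l * m : ℕ) : ℝ) ≤ c₁ * T / l := by
    push_cast
    calc (l : ℝ) * m ≤ l * (c₁ * T / (l : ℝ) ^ 2) := mul_le_mul_of_nonneg_left hmle hl0.le
      _ = c₁ * T / l := by field_simp
  -- the primes
  choose f hfm hfi using enum
  obtain ⟨J, hJ⟩ : ∃ J : Fin l × Fin m → ℕ, J = fun i => l + 1 + (i.1 : ℕ) := ⟨_, rfl⟩
  have hJ1 : ∀ i, l + 1 ≤ J i := fun i => by
    rw [hJ]
    simp only
    omega
  have hJ2 : ∀ i, J i ≤ 2 * l := fun i => by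
    rw [hJ]
    have := i.1.2
    simp only
    omega
  have hπ : ∀ i, 2 * m ≤ (PJ (J i)).card := by
    intro i
    have h10 := hch (J i) (hlj.trans ((Nat.le_succ l).trans (hJ1 i)))
    have h11 : (2 * m : ℝ) ≤ (PJ (J i)).card := by
      refine le_trans ?_ h10
      have h12 : Real.exp l ≤ Real.exp (J i) := Real.exp_le_exp.2 (by
        exact_mod_cast (Nat.le_succ l).trans (hJ1 i))
      rw [← hT] at h12
      have hJ0 : (0 : ℝ) < (J i : ℝ) := by
        exact_mod_cast (show 0 < J i by have := hJ1 i; omega)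
      have hJ2R : (J i : ℝ) ≤ 2 * l := by exact_mod_cast hJ2 i
      calc 2 * (m : ℝ) ≤ 2 * (c₁ * T / (l : ℝ) ^ 2) := by linarith
        _ ≤ c * T / (2 * l) := by
            rw [div_eq_mul_inv, div_eq_mul_inv]
            have h13 : 4 * c₁ ≤ l * c := (div_le_iff₀ hc).1 hl4
            have h14 : 2 * (c₁ * T * ((l : ℝ) ^ 2)⁻¹) = (4 * c₁) * (T * (2 * (l : ℝ) ^ 2)⁻¹) := by
              field_simp
              ring
            have h15 : c * T * (2 * (l : ℝ))⁻¹ = (l * c) * (T * (2 * (l : ℝ) ^ 2)⁻¹) := by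
              field_simp
            rw [h14, h15]
            exact mul_le_mul_of_nonneg_right h13 (by positivity)
        _ ≤ c * T / (J i) := div_le_div_of_nonneg_left (by positivity) hJ0 hJ2R
        _ ≤ c * Real.exp (J i) / (J i) := by
            refine div_le_div_of_nonneg_right ?_ hJ0.le
            exact mul_le_mul_of_nonneg_left h12 hc.le
    exact_mod_cast h11
  obtain ⟨w, hw⟩ : ∃ w : Fin l × Fin m → ℕ, w = fun i => (PJ (J i)).card / m := ⟨_, rfl⟩
  obtain ⟨q, hq⟩ : ∃ q : Fin l × Fin m → ℕ → ℕ,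
      q = fun i x => f (PJ (J i)) ((i.2 : ℕ) * w i + x) := ⟨_, rfl⟩
  have hidx : ∀ i, ∀ x < w i, (i.2 : ℕ) * w i + x < (PJ (J i)).card := by
    intro i x hx
    have h16 : ((i.2 : ℕ) + 1) * w i ≤ m * w i := Nat.mul_le_mul_right _ i.2.2
    have h17 : m * w i ≤ (PJ (J i)).card := by
      rw [hw]
      exact Nat.mul_div_le _ _
    have h18 : ((i.2 : ℕ) + 1) * w i = (i.2 : ℕ) * w i + w i := by ring
    omega
  have hqm : ∀ i, ∀ x < w i, q i x ∈ PJ (J i) := by
    intro i x hx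
    rw [hq]
    exact hfm _ _ (hidx i x hx)
  have hinj : ∀ i, ∀ x < w i, ∀ i', ∀ x' < w i', q i x = q i' x' → i = i' ∧ x = x' := by
    intro i x hx i' x' hx' h
    have h19 : J i = J i' := PJ_disj (hqm i x hx) (h ▸ hqm i' x' hx')
    have h20 : i.1 = i'.1 := by
      apply Fin.ext
      rw [hJ] at h19
      simp only at h19
      omega
    have h21 : w i = w i' := by
      rw [hw]
      simp only [h19]
    rw [hq] at h
    simp only at h
    rw [← h19, ← h21] at h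
    have h22 := hfi (PJ (J i)) _ (hidx i x hx) _ (by
      have := hidx i' x' hx'
      rw [← h19, ← h21] at this
      exact this) h
    rw [← h21] at hx'
    have h23 : (i.2 : ℕ) = i'.2 := by
      have hw0 : 0 < w i := by omega
      have e1 : ((i.2 : ℕ) * w i + x) / w i = i.2 := by
        rw [Nat.add_comm, Nat.add_mul_div_right _ _ hw0, Nat.div_eq_of_lt hx, Nat.zero_add]
      have e2 : ((i'.2 : ℕ) * w i + x') / w i = i'.2 := by
        rw [Nat.add_comm, Nat.add_mul_div_right _ _ hw0, Nat.div_eq_of_lt hx', Nat.zero_add]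
      rw [← e1, ← e2, h22]
    refine ⟨Prod.ext h20 (Fin.ext h23), ?_⟩
    rw [h23] at h22
    omega
  obtain ⟨B, hBc, hB⟩ := fam_core w q E (by omega) (fun i x hx => (mem_PJ (hqm i x hx)).1) hinj
  have hcard : Fintype.card (Fin l × Fin m) = l * m := by simp
  refine ⟨B, l * m, ∏ i : Fin l × Fin m, Real.exp (J i), ?_, ?_, ?_, ?_, ?_⟩
  · rw [← hT]
    push_cast
    calc c₁ / 2 * T / l = l * (c₁ * T / (l : ℝ) ^ 2 / 2) := by field_simp
      _ ≤ l * m := mul_le_mul_of_nonneg_left hmge hl0.le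
  · rw [← hT]
    refine hn.trans ?_
    rw [div_le_div_iff₀ hl0 (by norm_num)]
    nlinarith
  · calc (1 : ℝ) = ∏ _i : Fin l × Fin m, (1 : ℝ) := by simp
      _ ≤ ∏ i : Fin l × Fin m, Real.exp (J i) :=
        Finset.prod_le_prod (fun _ _ => zero_le_one) fun i _ => Real.one_le_exp (Nat.cast_nonneg _)
  · rw [hBc]
    have h24 : Real.exp ((l * m : ℕ) : ℝ) = ∏ _i : Fin l × Fin m, Real.exp 1 := by
      rw [Finset.prod_const, card_univ, hcard, ← Real.exp_nat_mul, mul_one]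
    rw [h24, ← Finset.prod_mul_distrib]
    push_cast
    refine Finset.prod_le_prod (fun i _ => by positivity) fun i _ => ?_
    rw [hw]
    exact block hc h1 hcc hT0 (Real.exp_pos _) (by omega) (by have := hJ1 i; omega) (hJ2 i) hm0
      hmle hEge (hch (J i) (hlj.trans ((Nat.le_succ l).trans (hJ1 i)))) (hπ i)
  · intro b hb
    obtain ⟨x, e, hxe, rfl⟩ := hB b hb
    have hpr : ∀ i, (q i (x i)).Prime := fun i => (mem_PJ (hqm i _ (hxe i).1)).1
    have hin : Function.Injective fun i => q i (x i) := fun i k h =>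
      (hinj i _ (hxe i).1 k _ (hxe k).1 h).1
    have h25 := member (fun i => q i (x i)) e hpr hin (fun i => hE8.trans (hxe i).2.1)
      (T := Real.exp l) (fun i => by
        have h26 := (mem_PJ (hqm i _ (hxe i).1)).2.1
        refine lt_of_le_of_lt (Real.exp_le_exp.2 ?_) h26
        have h27 : ((l + 1 : ℕ) : ℝ) ≤ J i := by exact_mod_cast hJ1 i
        push_cast at h27
        linarith)
    obtain ⟨h28, h29, h30, h31⟩ := h25
    refine ⟨h28, hcard ▸ h29, h30, ?_, ?_⟩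
    · calc (rad (∏ i, q i (x i) ^ e i) : ℝ) ≤ ((∏ i, q i (x i) : ℕ) : ℝ) := by exact_mod_cast h31
        _ = ∏ i, (q i (x i) : ℝ) := by push_cast; rfl
        _ ≤ ∏ i, Real.exp (J i) := Finset.prod_le_prod (fun i _ => Nat.cast_nonneg _) fun i _ =>
            (mem_PJ (hqm i _ (hxe i).1)).2.2
    · push_cast
      calc ∏ i, (q i (x i) : ℝ) ^ e i ≤ ∏ _i : Fin l × Fin m, Real.exp (2 * l * (2 * E)) := by
            refine Finset.prod_le_prod (fun i _ => by positivity) fun i _ => ?_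
            calc (q i (x i) : ℝ) ^ e i ≤ Real.exp (J i) ^ e i :=
                  pow_le_pow_left₀ (Nat.cast_nonneg _) (mem_PJ (hqm i _ (hxe i).1)).2.2 _
              _ = Real.exp (e i * J i) := by rw [← Real.exp_nat_mul]
              _ ≤ Real.exp (2 * l * (2 * E)) := by
                  refine Real.exp_le_exp.2 ?_
                  have h32 : (e i : ℝ) ≤ 2 * E := by exact_mod_cast (hxe i).2.2
                  have h33 : (J i : ℝ) ≤ 2 * l := by exact_mod_cast hJ2 i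
                  calc (e i : ℝ) * J i ≤ (2 * E) * (2 * l) :=
                        mul_le_mul h32 h33 (Nat.cast_nonneg _) (by positivity)
                    _ = 2 * l * (2 * E) := by ring
        _ = Real.exp ((l * m : ℕ) * (2 * l * (2 * E))) := by
            rw [Finset.prod_const, card_univ, hcard, ← Real.exp_nat_mul]
        _ ≤ Real.exp (Real.exp (2 * l) / l) := by
            refine Real.exp_le_exp.2 ?_
            have h34 : Real.exp (2 * (l : ℝ)) = T * T := by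
              rw [hT, ← Real.exp_add]
              ring_nf
            rw [h34]
            calc ((l * m : ℕ) : ℝ) * (2 * l * (2 * E))
                ≤ (c₁ * T / l) * (2 * l * (2 * (T / (4 * c₁ * l)))) := by
                  refine mul_le_mul hn ?_ (by positivity) (by positivity)
                  refine mul_le_mul_of_nonneg_left ?_ (by positivity)
                  linarith
              _ = T * T / l := by
                  field_simp
                  ring

end Pool.Agent.D0H8.AB
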