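import Pool.Agent.D0H61.AB.Stm2

/-!
# The numbers for the sharp family (module 19 FAM2 of the project AB)
-/

set_option autoImplicit false

namespace Pool.Agent.D0H8.AB

open Finset Pool.Agent.D0H61.AB

theorem exp_neg_le {η : ℝ} (h0 : 0 < η) (h1 : η ≤ 1 / 12) : Real.exp (-4 * η) ≤ 1 - 3 * η := by
  have h2 := Real.add_one_le_exp (4 * η)
  have h3 : Real.exp (-4 * η) = (Real.exp (4 * η))⁻¹ := by
    rw [← Real.exp_neg]
    ring_nf
  rw [h3]
  have h4 : (Real.exp (4 * η))⁻¹ ≤ (4 * η + 1)⁻¹ := inv_anti₀ (by linarith) h2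
  refine h4.trans ?_
  rw [inv_le_iff_one_le_mul₀ (by linarith)]
  nlinarith

theorem exp_neg_le' {η : ℝ} (h0 : 0 < η) (h1 : η ≤ 1 / 12) : Real.exp (-2 * η) ≤ 1 - η := by
  have h2 := Real.add_one_le_exp (2 * η)
  have h3 : Real.exp (-2 * η) = (Real.exp (2 * η))⁻¹ := by
    rw [← Real.exp_neg]
    ring_nf
  rw [h3]
  have h4 : (Real.exp (2 * η))⁻¹ ≤ (2 * η + 1)⁻¹ := inv_anti₀ (by linarith) h2
  refine h4.trans ?_
  rw [inv_le_iff_one_le_mul₀ (by linarith)]
  nlinarith

theorem blk (hB : S_BIN) {η l v : ℝ} {m q : ℕ} (hη : 0 < η) (hη8 : η ≤ 1 / 12) (hl : 1 ≤ l)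
    (hlv : l ≤ v) (hvη : 1 ≤ η * v) (hm1 : 1 ≤ m) (hm : (m : ℝ) ≤ η * Real.exp l / v ^ 2)
    (hq : (1 - 2 * η) * (η * Real.exp v / v) ≤ (q : ℝ)) :
    Real.exp (m * (1 - l - 4 * η) - (l + 1)) * (v ^ m * Real.exp (m * v)) ≤
      (q.choose m : ℝ) := by
  have hv0 : 0 < v := by linarith
  have hm0 : (0 : ℝ) < m := by exact_mod_cast hm1
  obtain ⟨X, hX⟩ : ∃ X : ℝ, X = η * Real.exp v / v := ⟨_, rfl⟩
  have hX0 : 0 < X := by rw [hX]; positivity
  have h1 : (m : ℝ) ≤ η * X := by
    refine hm.trans ?_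
    rw [hX]
    have h2 : Real.exp l ≤ η * v * Real.exp v := by
      have h3 := Real.exp_le_exp.2 hlv
      nlinarith [Real.exp_pos v]
    calc η * Real.exp l / v ^ 2 ≤ η * (η * v * Real.exp v) / v ^ 2 := by
          refine div_le_div_of_nonneg_right ?_ (by positivity)
          exact mul_le_mul_of_nonneg_left h2 hη.le
      _ = η * (η * Real.exp v / v) := by field_simp
  rw [← hX] at hq
  have h4 : (1 - 3 * η) * X ≤ (q : ℝ) - m := by linarith
  have hmq : m ≤ q := by
    have h5 : (m : ℝ) ≤ q := by nlinarith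
    exact_mod_cast h5
  have h6 : Real.exp (v - l - 4 * η) * v ≤ ((q : ℝ) - m) / m := by
    rw [le_div_iff₀ hm0]
    have h7 : Real.exp (v - l - 4 * η) * v * m ≤
        Real.exp (v - l - 4 * η) * v * (η * Real.exp l / v ^ 2) :=
      mul_le_mul_of_nonneg_left hm (by positivity)
    have h8 : Real.exp (v - l - 4 * η) * v * (η * Real.exp l / v ^ 2) =
        Real.exp (-4 * η) * X := by
      have h9 : Real.exp (v - l - 4 * η) * Real.exp l = Real.exp (-4 * η) * Real.exp v := by
        rw [← Real.exp_add, ← Real.exp_add]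
        ring_nf
      rw [hX]
      calc Real.exp (v - l - 4 * η) * v * (η * Real.exp l / v ^ 2)
          = (Real.exp (v - l - 4 * η) * Real.exp l) * (η / v) := by
            field_simp
        _ = Real.exp (-4 * η) * (η * Real.exp v / v) := by
            rw [h9]
            field_simp
    rw [h8] at h7
    have h10 : Real.exp (-4 * η) * X ≤ (1 - 3 * η) * X :=
      mul_le_mul_of_nonneg_right (exp_neg_le hη hη8) hX0.le
    linarith
  have hml : (m : ℝ) ≤ Real.exp l := by
    refine hm.trans ?_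
    rw [div_le_iff₀ (by positivity)]
    have h11 : 1 ≤ v ^ 2 := by nlinarith
    have h12 : η * Real.exp l ≤ Real.exp l := by nlinarith [Real.exp_pos l]
    nlinarith [Real.exp_pos l]
  refine le_trans ?_ (hB.2 q m hm1 hmq)
  rw [le_div_iff₀ (by positivity)]
  have h13 : Real.exp 1 * m ≤ Real.exp (l + 1) := by
    rw [Real.exp_add, mul_comm (Real.exp l)]
    exact mul_le_mul_of_nonneg_left hml (Real.exp_pos _).le
  calc Real.exp (m * (1 - l - 4 * η) - (l + 1)) * (v ^ m * Real.exp (m * v)) * (Real.exp 1 * m)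
      ≤ Real.exp (m * (1 - l - 4 * η) - (l + 1)) * (v ^ m * Real.exp (m * v)) *
          Real.exp (l + 1) := mul_le_mul_of_nonneg_left h13 (by positivity)
    _ = (Real.exp (v - l - 4 * η) * v) ^ m * Real.exp m := by
        rw [mul_pow, ← Real.exp_nat_mul]
        have h14 : Real.exp (m * (1 - l - 4 * η) - (l + 1)) * (v ^ m * Real.exp (m * v)) *
            Real.exp (l + 1) = (Real.exp (m * (1 - l - 4 * η) - (l + 1)) * Real.exp (m * v) *
            Real.exp (l + 1)) * v ^ m := by ring
        have h15 : Real.exp (m * (v - l - 4 * η)) * v ^ m * Real.exp m =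
            (Real.exp (m * (v - l - 4 * η)) * Real.exp m) * v ^ m := by ring
        rw [h14, h15, ← Real.exp_add, ← Real.exp_add, ← Real.exp_add]
        ring_nf
    _ ≤ (((q : ℝ) - m) / m) ^ m * Real.exp m :=
        mul_le_mul_of_nonneg_right (pow_le_pow_left₀ (by positivity) h6 m) (Real.exp_pos _).le

theorem fct (hB : S_BIN) {η l M : ℝ} {n : ℕ} (hη : 0 < η) (hη8 : η ≤ 1 / 12) (hl : 1 ≤ l)
    (hn1 : 1 ≤ n) (hn : (n : ℝ) ≤ Real.exp l / l)
    (hM : (1 - η) * (Real.exp l * Real.exp l / l) ≤ M) :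
    Real.exp (n * (l + 1 - 2 * η) - (l + 1)) ≤ M ^ n / (n.factorial : ℝ) := by
  have hl0 : 0 < l := by linarith
  have hn0 : (0 : ℝ) < n := by exact_mod_cast hn1
  have hnl : (n : ℝ) ≤ Real.exp l := hn.trans (div_le_self (Real.exp_pos _).le hl)
  have h1 : Real.exp (l + 1 - 2 * η) ≤ M * Real.exp 1 / n := by
    rw [le_div_iff₀ hn0]
    have h2 : Real.exp (l + 1 - 2 * η) * n ≤ Real.exp (l + 1 - 2 * η) * (Real.exp l / l) :=
      mul_le_mul_of_nonneg_left hn (Real.exp_pos _).le
    have h3 : Real.exp (l + 1 - 2 * η) * (Real.exp l / l) =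
        Real.exp (-2 * η) * (Real.exp l * Real.exp l / l) * Real.exp 1 := by
      have h4 : Real.exp (l + 1 - 2 * η) = Real.exp (-2 * η) * Real.exp l * Real.exp 1 := by
        rw [← Real.exp_add, ← Real.exp_add]
        ring_nf
      rw [h4]
      ring
    rw [h3] at h2
    refine h2.trans (mul_le_mul_of_nonneg_right ?_ (Real.exp_pos _).le)
    refine le_trans ?_ hM
    exact mul_le_mul_of_nonneg_right (exp_neg_le' hη hη8) (by positivity)
  have hf0 : (0 : ℝ) < n.factorial := by exact_mod_cast Nat.factorial_pos n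
  rw [le_div_iff₀ hf0]
  have h5 := hB.1 n hn1
  have h6 : Real.exp 1 * n ≤ Real.exp (l + 1) := by
    rw [Real.exp_add, mul_comm (Real.exp l)]
    exact mul_le_mul_of_nonneg_left hnl (Real.exp_pos _).le
  calc Real.exp (n * (l + 1 - 2 * η) - (l + 1)) * n.factorial
      ≤ Real.exp (n * (l + 1 - 2 * η) - (l + 1)) *
          (Real.exp 1 * n * ((n : ℝ) / Real.exp 1) ^ n) :=
        mul_le_mul_of_nonneg_left h5 (Real.exp_pos _).le
    _ ≤ Real.exp (n * (l + 1 - 2 * η) - (l + 1)) *
          (Real.exp (l + 1) * ((n : ℝ) / Real.exp 1) ^ n) := by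
        refine mul_le_mul_of_nonneg_left ?_ (Real.exp_pos _).le
        exact mul_le_mul_of_nonneg_right h6 (by positivity)
    _ = (Real.exp (l + 1 - 2 * η) * ((n : ℝ) / Real.exp 1)) ^ n := by
        rw [mul_pow, ← mul_assoc, ← Real.exp_add, ← Real.exp_nat_mul]
        ring_nf
    _ ≤ (M * Real.exp 1 / n * ((n : ℝ) / Real.exp 1)) ^ n := by
        refine pow_le_pow_left₀ (by positivity) ?_ n
        exact mul_le_mul_of_nonneg_right h1 (by positivity)
    _ = M ^ n := by
        congr 1
        have := (Real.exp_pos 1).ne'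
        field_simp

/-- The sums over the blocks. -/
theorem sums {η l T : ℝ} {I : ℕ} (hη : 0 < η) (hl : 1 ≤ l) (hT : 0 < T) (hI : η * I = l / η) :
    (∑ i ∈ range I, (⌊η * T / (l + η * (i + 1)) ^ 2⌋₊ : ℝ)) ≤ T / l ∧
      (1 - 2 * η) * (T / l) - I ≤ ∑ i ∈ range I, (⌊η * T / (l + η * (i + 1)) ^ 2⌋₊ : ℝ) := by
  have hl0 : 0 < l := by linarith
  have hv : ∀ i : ℕ, 0 < l + η * i := fun i => by positivity
  constructor
  · calc (∑ i ∈ range I, (⌊η * T / (l + η * (i + 1)) ^ 2⌋₊ : ℝ))
        ≤ ∑ i ∈ range I, (T * (1 / (l + η * i)) - T * (1 / (l + η * ((i + 1 : ℕ) : ℝ)))) := by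
          refine Finset.sum_le_sum fun i _ => ?_
          have h1 : (0 : ℝ) < l + η * (i + 1) := by positivity
          refine (Nat.floor_le (by positivity)).trans ?_
          push_cast
          rw [← mul_sub, div_sub_div _ _ (hv i).ne' h1.ne', mul_div_assoc', div_le_div_iff₀
            (by positivity) (by have := hv i; positivity)]
          have h2 : 1 * (l + η * ((i : ℝ) + 1)) - (l + η * i) * 1 = η := by ring
          rw [h2]
          have h3 : (l + η * i) * (l + η * (i + 1)) ≤ (l + η * (i + 1)) ^ 2 := by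
            rw [sq]
            refine mul_le_mul_of_nonneg_right ?_ h1.le
            linarith
          have h4 : 0 ≤ η * T := by positivity
          calc η * T * ((l + η * i) * (l + η * (i + 1))) ≤ η * T * (l + η * (i + 1)) ^ 2 :=
                mul_le_mul_of_nonneg_left h3 h4
            _ = T * η * (l + η * (i + 1)) ^ 2 := by ring
      _ = T * (1 / (l + η * ((0 : ℕ) : ℝ))) - T * (1 / (l + η * (I : ℝ))) := by
          rw [Finset.sum_range_sub' (fun i : ℕ => T * (1 / (l + η * (i : ℝ)))) I]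
      _ ≤ T / l := by
          have h5 : 0 ≤ T * (1 / (l + η * (I : ℝ))) := by
            have := hv I
            positivity
          have h6 : T * (1 / (l + η * ((0 : ℕ) : ℝ))) = T / l := by
            push_cast
            rw [mul_zero, add_zero]
            ring
          rw [h6]
          linarith
  · have h7 : T * (1 / (l + η * 1)) - T * (1 / (l + η * (I + 1))) - I ≤
        ∑ i ∈ range I, (⌊η * T / (l + η * (i + 1)) ^ 2⌋₊ : ℝ) := by
      calc T * (1 / (l + η * 1)) - T * (1 / (l + η * (I + 1))) - I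
          = ∑ i ∈ range I, (T * (1 / (l + η * ((i : ℝ) + 1))) -
              T * (1 / (l + η * (((i + 1 : ℕ) : ℝ) + 1))) - 1) := by
            rw [Finset.sum_sub_distrib, Finset.sum_range_sub'
              (fun i : ℕ => T * (1 / (l + η * ((i : ℝ) + 1)))) I]
            simp
        _ ≤ ∑ i ∈ range I, (⌊η * T / (l + η * (i + 1)) ^ 2⌋₊ : ℝ) := by
            refine Finset.sum_le_sum fun i _ => ?_
            have h8 := Nat.lt_floor_add_one (η * T / (l + η * ((i : ℝ) + 1)) ^ 2)
            have h9 : T * (1 / (l + η * ((i : ℝ) + 1))) -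
                T * (1 / (l + η * (((i + 1 : ℕ) : ℝ) + 1))) ≤ η * T / (l + η * ((i : ℝ) + 1)) ^ 2 := by
              have h10 : (0 : ℝ) < l + η * ((i : ℝ) + 1) := by positivity
              have h11 : (0 : ℝ) < l + η * (((i + 1 : ℕ) : ℝ) + 1) := by positivity
              rw [← mul_sub, div_sub_div _ _ h10.ne' h11.ne', mul_div_assoc',
                div_le_div_iff₀ (by positivity) (by positivity)]
              have h12 : 1 * (l + η * (((i + 1 : ℕ) : ℝ) + 1)) - (l + η * ((i : ℝ) + 1)) * 1 = η := by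
                push_cast
                ring
              rw [h12]
              have h13 : (l + η * ((i : ℝ) + 1)) ^ 2 ≤
                  (l + η * ((i : ℝ) + 1)) * (l + η * (((i + 1 : ℕ) : ℝ) + 1)) := by
                rw [sq]
                refine mul_le_mul_of_nonneg_left ?_ h10.le
                push_cast
                linarith
              calc T * η * (l + η * ((i : ℝ) + 1)) ^ 2 ≤
                    T * η * ((l + η * ((i : ℝ) + 1)) * (l + η * (((i + 1 : ℕ) : ℝ) + 1))) :=
                    mul_le_mul_of_nonneg_left h13 (by positivity)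
                _ = η * T * ((l + η * ((i : ℝ) + 1)) * (l + η * (((i + 1 : ℕ) : ℝ) + 1))) := by ring
            linarith
    have h14 : (1 - η) * (T / l) ≤ T * (1 / (l + η * 1)) := by
      rw [mul_one_div, mul_div_assoc', div_le_div_iff₀ hl0 (by positivity)]
      have h15 : (1 - η) * (l + η * 1) ≤ l := by nlinarith [sq_nonneg η]
      calc (1 - η) * T * (l + η * 1) = T * ((1 - η) * (l + η * 1)) := by ring
        _ ≤ T * l := mul_le_mul_of_nonneg_left h15 hT.le
    have h16 : T * (1 / (l + η * (I + 1))) ≤ η * (T / l) := by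
      have h17 : l / η ≤ l + η * (I + 1) := by
        rw [mul_add, hI]
        have : 0 ≤ l + η * 1 := by positivity
        linarith
      have h18 : 1 / (l + η * ((I : ℝ) + 1)) ≤ η / l := by
        rw [div_le_div_iff₀ (by positivity) hl0, one_mul]
        calc l = η * (l / η) := by field_simp
          _ ≤ η * (l + η * ((I : ℝ) + 1)) := mul_le_mul_of_nonneg_left h17 hη.le
      calc T * (1 / (l + η * (I + 1))) ≤ T * (η / l) := mul_le_mul_of_nonneg_left h18 hT.le
        _ = η * (T / l) := by ring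
    linarith

end Pool.Agent.D0H8.AB
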