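import Pool.Agent.D0H61.AB.Stm2
import Pool.Agent.D0H8.AB.Fam2N

/-!
# The sharp family (module 19 FAM2 of the project AB)
-/

set_option autoImplicit false

namespace Pool.Agent.D0H8.AB

open Finset Pool.Agent.D0H61.AB

theorem fac_set (U : Finset ℕ) (hU : ∀ p ∈ U, p.Prime) (e : ℕ → ℕ) (r : ℕ) :
    (∏ p ∈ U, p ^ e p).factorization r = if r ∈ U then e r else 0 := by
  rw [Nat.factorization_prod (fun p hp => pow_ne_zero _ (hU p hp).ne_zero),
    Finsupp.finsetSum_apply]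
  rw [← Finset.sum_ite_eq' U r e]
  refine Finset.sum_congr rfl fun p hp => ?_
  rw [(hU p hp).factorization_pow, Finsupp.single_apply]

theorem primeFactors_set (U : Finset ℕ) (hU : ∀ p ∈ U, p.Prime) (e : ℕ → ℕ)
    (he : ∀ p ∈ U, e p ≠ 0) : (∏ p ∈ U, p ^ e p).primeFactors = U := by
  ext r
  rw [← Nat.support_factorization, Finsupp.mem_support_iff, fac_set U hU e r]
  constructor
  · intro h
    by_contra hr
    exact h (if_neg hr)
  · intro h
    rw [if_pos h]
    exact he r h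

theorem famB (hS : S_SIMP) {I : ℕ} (Q : Fin I → Finset ℕ) (m : Fin I → ℕ) (v : Fin I → ℝ) (M : ℝ)
    (hM : 0 ≤ M) (hQ : ∀ i, ∀ p ∈ Q i, p.Prime ∧ (p : ℝ) ≤ Real.exp (v i))
    (hdisj : ∀ i j, ∀ p ∈ Q i, p ∈ Q j → i = j) :
    ∃ B : Finset ℕ,
      (∏ i, ((Q i).card.choose (m i) : ℝ)) *
        (M ^ (∑ i, m i) / ((∑ i, m i).factorial * ∏ i, v i ^ m i)) ≤ B.card ∧
      ∀ b ∈ B, 0 < b ∧ b.primeFactors.card ≤ ∑ i, m i ∧
        (∀ p ∈ b.primeFactors, (∃ i, p ∈ Q i) ∧ 8 ≤ b.factorization p) ∧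
        (rad b : ℝ) ≤ Real.exp (∑ i, m i * v i) ∧
        (b : ℝ) ≤ Real.exp (8 * ∑ i, m i * v i + M) := by
  classical
  obtain ⟨Φ, hΦ⟩ : ∃ Φ : Finset (Fin I → Finset ℕ),
      Φ = Fintype.piFinset fun i => powersetCard (m i) (Q i) := ⟨_, rfl⟩
  obtain ⟨U, hU⟩ : ∃ U : (Fin I → Finset ℕ) → Finset ℕ, U = fun φ => univ.biUnion φ := ⟨_, rfl⟩
  have hmem : ∀ φ ∈ Φ, ∀ i, φ i ⊆ Q i ∧ (φ i).card = m i := by
    intro φ hφ i
    rw [hΦ, Fintype.mem_piFinset] at hφ
    exact mem_powersetCard.1 (hφ i)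
  have hmemU : ∀ φ p, p ∈ U φ ↔ ∃ i, p ∈ φ i := by
    intro φ p
    rw [hU]
    simp
  have hpU : ∀ φ ∈ Φ, ∀ p ∈ U φ, p.Prime := by
    intro φ hφ p hp
    obtain ⟨i, hi⟩ := (hmemU φ p).1 hp
    exact (hQ i p ((hmem φ hφ i).1 hi)).1
  have hpd : ∀ φ ∈ Φ, Set.PairwiseDisjoint (↑(univ : Finset (Fin I))) φ := by
    intro φ hφ i _ j _ hij
    rw [Function.onFun, Finset.disjoint_left]
    intro p hp hp'
    exact hij (hdisj i j p ((hmem φ hφ i).1 hp) ((hmem φ hφ j).1 hp'))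
  have hUc : ∀ φ ∈ Φ, (U φ).card = ∑ i, m i := by
    intro φ hφ
    rw [hU]
    simp only
    rw [Finset.card_biUnion (fun i hi j hj hij => hpd φ hφ (mem_coe.2 hi) (mem_coe.2 hj) hij)]
    exact Finset.sum_congr rfl fun i _ => (hmem φ hφ i).2
  have hlog : ∀ p : ℕ, p.Prime → 0 < Real.log p := fun p hp =>
    Real.log_pos (by exact_mod_cast hp.one_lt)
  -- products and sums over `U φ`
  have hprodU : ∀ φ ∈ Φ, ∏ p ∈ U φ, Real.log p ≤ ∏ i, v i ^ m i := by
    intro φ hφ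
    rw [hU]
    simp only
    rw [Finset.prod_biUnion (hpd φ hφ)]
    refine Finset.prod_le_prod (fun i _ => Finset.prod_nonneg fun p hp =>
      (hlog p (hQ i p ((hmem φ hφ i).1 hp)).1).le) fun i _ => ?_
    rw [← (hmem φ hφ i).2, ← Finset.prod_const]
    refine Finset.prod_le_prod (fun p hp => (hlog p (hQ i p ((hmem φ hφ i).1 hp)).1).le)
      fun p hp => ?_
    have h1 := hQ i p ((hmem φ hφ i).1 hp)
    have h2 := Real.log_le_log (by exact_mod_cast h1.1.pos) h1.2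
    rwa [Real.log_exp] at h2
  have hradU : ∀ φ ∈ Φ, ((∏ p ∈ U φ, p : ℕ) : ℝ) ≤ Real.exp (∑ i, m i * v i) := by
    intro φ hφ
    rw [hU]
    simp only
    rw [Finset.prod_biUnion (hpd φ hφ), Real.exp_sum]
    push_cast
    refine Finset.prod_le_prod (fun i _ => Finset.prod_nonneg fun p _ => Nat.cast_nonneg _)
      fun i _ => ?_
    rw [Real.exp_nat_mul, ← (hmem φ hφ i).2, ← Finset.prod_const]
    exact Finset.prod_le_prod (fun p _ => Nat.cast_nonneg _) fun p hp =>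
      (hQ i p ((hmem φ hφ i).1 hp)).2
  have hex : ∀ φ : Fin I → Finset ℕ, ∃ F : Finset (ℕ → ℕ), φ ∈ Φ →
      (M ^ (∑ i, m i) / ((∑ i, m i).factorial * ∏ i, v i ^ m i) ≤ F.card ∧
        ∀ f ∈ F, (∀ p, p ∉ U φ → f p = 0) ∧ ∑ p ∈ U φ, (f p : ℝ) * Real.log p ≤ M) := by
    intro φ
    by_cases hφ : φ ∈ Φ
    · obtain ⟨F, hF1, hF2⟩ := hS ℕ (U φ) (fun p => Real.log p) M
        (fun p hp => hlog p (hpU φ hφ p hp)) hM
      refine ⟨F, fun _ => ⟨le_trans ?_ hF1, hF2⟩⟩
      rw [hUc φ hφ]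
      have h0 : 0 < ∏ p ∈ U φ, Real.log p := Finset.prod_pos fun p hp => hlog p (hpU φ hφ p hp)
      refine div_le_div_of_nonneg_left (by positivity) ?_ ?_
      · have : (0 : ℝ) < (∑ i, m i).factorial := by exact_mod_cast Nat.factorial_pos _
        positivity
      · exact mul_le_mul_of_nonneg_left (hprodU φ hφ) (Nat.cast_nonneg _)
    · exact ⟨∅, fun h => absurd h hφ⟩
  choose F hF using hex
  obtain ⟨G, hG⟩ : ∃ G : (Σ _ : Fin I → Finset ℕ, ℕ → ℕ) → ℕ,
      G = fun x => ∏ p ∈ U x.1, p ^ (8 + x.2 p) := ⟨_, rfl⟩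
  refine ⟨(Φ.sigma F).image G, ?_, ?_⟩
  · rw [Finset.card_image_of_injOn, Finset.card_sigma]
    · have h1 : (∏ i, ((Q i).card.choose (m i) : ℝ)) = (Φ.card : ℝ) := by
        rw [hΦ, Fintype.card_piFinset]
        push_cast
        exact Finset.prod_congr rfl fun i _ => by rw [card_powersetCard]
      rw [h1, ← nsmul_eq_mul]
      push_cast
      exact Finset.card_nsmul_le_sum _ _ _ fun φ hφ => (hF φ hφ).1
    · rintro ⟨φ, f⟩ hx ⟨ψ, g⟩ hy h
      rw [mem_coe, mem_sigma] at hx hy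
      obtain ⟨hφ, hf⟩ := hx
      obtain ⟨hψ, hg⟩ := hy
      simp only at hφ hf hψ hg
      rw [hG] at h
      simp only at h
      have h2 : U φ = U ψ := by
        rw [← primeFactors_set (U φ) (hpU φ hφ) (fun p => 8 + f p) (fun p _ => by omega),
          ← primeFactors_set (U ψ) (hpU ψ hψ) (fun p => 8 + g p) (fun p _ => by omega), h]
      have h3 : φ = ψ := by
        have h4 : ∀ χ ∈ Φ, ∀ i, χ i = (U χ).filter (· ∈ Q i) := by
          intro χ hχ i
          ext p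
          rw [mem_filter, hmemU]
          constructor
          · intro hp
            exact ⟨⟨i, hp⟩, (hmem χ hχ i).1 hp⟩
          · rintro ⟨⟨j, hj⟩, hp⟩
            have := hdisj j i p ((hmem χ hχ j).1 hj) hp
            subst this
            exact hj
        funext i
        rw [h4 φ hφ i, h4 ψ hψ i, h2]
      subst h3
      have h5 : f = g := by
        funext p
        by_cases hp : p ∈ U φ
        · have h6 := fac_set (U φ) (hpU φ hφ) (fun p => 8 + f p) p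
          have h7 := fac_set (U φ) (hpU φ hφ) (fun p => 8 + g p) p
          rw [if_pos hp] at h6 h7
          rw [h, h7] at h6
          omega
        · rw [((hF φ hφ).2 f hf).1 p hp, ((hF φ hφ).2 g hg).1 p hp]
      rw [h5]
  · intro b hb
    obtain ⟨⟨φ, f⟩, hx, rfl⟩ := mem_image.1 hb
    rw [mem_sigma] at hx
    obtain ⟨hφ, hf⟩ := hx
    simp only at hφ hf
    rw [hG]
    simp only
    have h8 := primeFactors_set (U φ) (hpU φ hφ) (fun p => 8 + f p) (fun p _ => by omega)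
    refine ⟨Finset.prod_pos fun p hp => pow_pos (hpU φ hφ p hp).pos _, ?_, ?_, ?_, ?_⟩
    · rw [h8, hUc φ hφ]
    · intro p hp
      rw [h8] at hp
      rw [fac_set (U φ) (hpU φ hφ) (fun p => 8 + f p) p, if_pos hp]
      obtain ⟨i, hi⟩ := (hmemU φ p).1 hp
      exact ⟨⟨i, (hmem φ hφ i).1 hi⟩, by omega⟩
    · rw [rad, h8]
      exact hradU φ hφ
    · have h9 : ((∏ p ∈ U φ, p ^ (8 + f p) : ℕ) : ℝ) =
          ((∏ p ∈ U φ, p : ℕ) : ℝ) ^ 8 * Real.exp (∑ p ∈ U φ, (f p : ℝ) * Real.log p) := by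
        rw [Real.exp_sum]
        push_cast
        rw [← Finset.prod_pow, ← Finset.prod_mul_distrib]
        refine Finset.prod_congr rfl fun p hp => ?_
        have hp0 : (0 : ℝ) < p := by exact_mod_cast (hpU φ hφ p hp).pos
        rw [pow_add, Real.exp_nat_mul, Real.exp_log hp0]
      rw [h9, Real.exp_add]
      have h10 : Real.exp (8 * ∑ i, m i * v i) = Real.exp (∑ i, m i * v i) ^ 8 := by
        rw [← Real.exp_nat_mul]
        norm_num
      rw [h10]
      refine mul_le_mul (pow_le_pow_left₀ (Nat.cast_nonneg _) (hradU φ hφ) 8)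
        (Real.exp_le_exp.2 ((hF φ hφ).2 f hf).2) (Real.exp_pos _).le (by positivity)

theorem mem_PB {u η : ℝ} {p : ℕ} (h : p ∈ PB u η) :
    p.Prime ∧ Real.exp u < p ∧ (p : ℝ) ≤ Real.exp (u + η) := by
  rw [PB, mem_filter, mem_Icc] at h
  exact ⟨h.2.1, h.2.2, (Nat.le_floor_iff (Real.exp_pos _).le).1 h.1.2⟩

theorem t_FAM2 : S_PNTB → S_SIMP → S_BIN → S_FAM2 := by
  classical
  intro hP hS hBI ε hε
  obtain ⟨h, hh⟩ : ∃ h : ℕ, h = ⌈13 / ε⌉₊ + 12 := ⟨_, rfl⟩
  have hh12 : (12 : ℝ) ≤ h := by exact_mod_cast (show 12 ≤ h by omega)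
  have hh0 : (0 : ℝ) < h := by linarith
  have hhε : 13 / ε ≤ h := by
    refine (Nat.le_ceil _).trans ?_
    exact_mod_cast (show ⌈13 / ε⌉₊ ≤ h by omega)
  obtain ⟨η, hη⟩ : ∃ η : ℝ, η = 1 / h := ⟨_, rfl⟩
  have hη0 : 0 < η := by rw [hη]; positivity
  have hηh : η * h = 1 := by rw [hη]; field_simp
  have hη12 : η ≤ 1 / 12 := by
    rw [hη]
    exact div_le_div_of_nonneg_left (by norm_num) (by norm_num) hh12
  have h13 : 13 * η ≤ ε := by
    have h1 : 13 ≤ h * ε := (div_le_iff₀ hε).1 hhε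
    rw [hη]
    rw [mul_one_div, div_le_iff₀ hh0]
    linarith
  obtain ⟨u₀, -, hu₀⟩ := hP η hη0 (by linarith)
  refine ⟨⌈u₀⌉₊ + 2400 * h ^ 4 + 1, by omega, ?_⟩
  intro l hl
  obtain ⟨L, hL⟩ : ∃ L : ℝ, L = (l : ℝ) := ⟨_, rfl⟩
  have hl1 : (1 : ℝ) ≤ L := by
    rw [hL]
    exact_mod_cast (show 1 ≤ l by omega)
  have hL0 : 0 < L := by linarith
  have hlu : u₀ ≤ L := by
    rw [hL]
    refine (Nat.le_ceil _).trans ?_
    exact_mod_cast (show ⌈u₀⌉₊ ≤ l by omega)
  have hl24 : 2400 * (h : ℝ) ^ 4 ≤ L := by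
    rw [hL]
    exact_mod_cast (show 2400 * h ^ 4 ≤ l by omega)
  obtain ⟨T, hT⟩ : ∃ T : ℝ, T = Real.exp L := ⟨_, rfl⟩
  have hT0 : 0 < T := by rw [hT]; exact Real.exp_pos _
  have hTbig : 100 * (h : ℝ) ^ 4 * L ^ 3 ≤ T := by
    have h1 := Real.pow_div_factorial_le_exp L hL0.le 4
    rw [← hT] at h1
    have h2 : L ^ 4 / 24 ≤ T := by simpa [Nat.factorial] using h1
    have h3 : 100 * (h : ℝ) ^ 4 * L ^ 3 ≤ L ^ 4 / 24 := by
      have h4 : 2400 * (h : ℝ) ^ 4 * L ^ 3 ≤ L * L ^ 3 :=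
        mul_le_mul_of_nonneg_right hl24 (by positivity)
      have h5 : L * L ^ 3 = L ^ 4 := by ring
      rw [h5] at h4
      linarith
    linarith
  -- all the conditions on `T`
  have hh1 : (1 : ℝ) ≤ h := by linarith
  have hL1 : ∀ a b : ℕ, a ≤ 4 → b ≤ 3 → 100 * (h : ℝ) ^ a * L ^ b ≤ T := by
    intro a b ha hb
    refine le_trans ?_ hTbig
    exact mul_le_mul (mul_le_mul_of_nonneg_left (pow_le_pow_right₀ hh1 ha) (by norm_num))
      (pow_le_pow_right₀ hl1 hb) (by positivity) (by positivity)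
  obtain ⟨I, hI⟩ : ∃ I : ℕ, I = h ^ 2 * l := ⟨_, rfl⟩
  have hIR : (I : ℝ) = (h : ℝ) ^ 2 * L := by
    rw [hI, hL]
    push_cast
    ring
  have hIη : η * I = L / η := by
    rw [hIR, hη]
    field_simp
  have hIη' : η * I = h * L := by
    rw [hIη, hη]
    field_simp
  obtain ⟨v, hv⟩ : ∃ v : ℕ → ℝ, v = fun i : ℕ => L + η * ((i : ℝ) + 1) := ⟨_, rfl⟩
  obtain ⟨m, hm⟩ : ∃ m : ℕ → ℕ, m = fun i => ⌊η * T / (v i) ^ 2⌋₊ := ⟨_, rfl⟩
  have hvL : ∀ i, L ≤ v i := fun i => by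
    rw [hv]
    have : 0 ≤ η * ((i : ℝ) + 1) := by positivity
    simp only
    linarith
  have hv0 : ∀ i, 0 < v i := fun i => hL0.trans_le (hvL i)
  have hvU : ∀ i < I, v i ≤ (h + 1) * L := by
    intro i hi
    rw [hv]
    simp only
    have h1 : ((i : ℝ) + 1) ≤ I := by exact_mod_cast hi
    have h2 := mul_le_mul_of_nonneg_left h1 hη0.le
    rw [hIη'] at h2
    linarith
  have hm1 : ∀ i < I, 1 ≤ m i := by
    intro i hi
    rw [hm]
    simp only
    refine Nat.le_floor ?_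
    rw [Nat.cast_one, le_div_iff₀ (by have := hv0 i; positivity), one_mul]
    have h1 : (v i) ^ 2 ≤ ((h + 1) * L) ^ 2 := pow_le_pow_left₀ (hv0 i).le (hvU i hi) 2
    have h2 : ((h : ℝ) + 1) ^ 2 ≤ 4 * (h : ℝ) ^ 2 := by nlinarith
    have h3 : (((h : ℝ) + 1) * L) ^ 2 ≤ 4 * (h : ℝ) ^ 2 * L ^ 2 := by
      rw [mul_pow]
      exact mul_le_mul_of_nonneg_right h2 (by positivity)
    have h4 := hL1 3 2 (by norm_num) (by norm_num)
    have h5 : 4 * (h : ℝ) ^ 2 * L ^ 2 ≤ η * T := by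
      rw [hη, one_div, inv_mul_eq_div, le_div_iff₀ hh0]
      have h6 : 0 ≤ (h : ℝ) ^ 3 * L ^ 2 := by positivity
      nlinarith
    linarith
  have hmle : ∀ i, (m i : ℝ) ≤ η * T / (v i) ^ 2 := fun i => by
    rw [hm]
    exact Nat.floor_le (by have := hv0 i; positivity)
  obtain ⟨n, hn⟩ : ∃ n : ℕ, n = ∑ i : Fin I, m i := ⟨_, rfl⟩
  have hnR : (n : ℝ) = ∑ i ∈ range I, (⌊η * T / (L + η * (i + 1)) ^ 2⌋₊ : ℝ) := by
    rw [hn, Finset.sum_range]
    push_cast
    refine Finset.sum_congr rfl fun i _ => ?_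
    rw [hm, hv]
  obtain ⟨hs1, hs2⟩ := sums (I := I) hη0 hl1 hT0 hIη
  rw [← hnR] at hs1 hs2
  obtain ⟨S, hSd⟩ : ∃ S : ℝ, S = ∑ i : Fin I, (m i : ℝ) * v i := ⟨_, rfl⟩
  have hS0 : 0 ≤ S := by
    rw [hSd]
    exact Finset.sum_nonneg fun i _ => mul_nonneg (Nat.cast_nonneg _) (hv0 i).le
  have hSU : S ≤ h * T := by
    calc S ≤ ∑ _i : Fin I, η * T / L := by
          rw [hSd]
          refine Finset.sum_le_sum fun i _ => ?_
          have h1 := hv0 i
          calc (m i : ℝ) * v i ≤ η * T / (v i) ^ 2 * v i :=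
                mul_le_mul_of_nonneg_right (hmle i) h1.le
            _ = η * T / v i := by field_simp
            _ ≤ η * T / L := div_le_div_of_nonneg_left (by positivity) hL0 (hvL i)
      _ = I * (η * T / L) := by
          rw [Finset.sum_const, card_univ, Fintype.card_fin, nsmul_eq_mul]
      _ = h * T := by
          have : (I : ℝ) * (η * T / L) = η * I * (T / L) := by ring
          rw [this, hIη']
          field_simp
  have hTT : Real.exp (2 * (l : ℝ)) = T * T := by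
    rw [hT, hL, ← Real.exp_add]
    ring_nf
  obtain ⟨W, hW⟩ : ∃ W : ℝ, W = T * T / L := ⟨_, rfl⟩
  have hW0 : 0 < W := by rw [hW]; positivity
  obtain ⟨M, hM⟩ : ∃ M : ℝ, M = W - 8 * S := ⟨_, rfl⟩
  have h8S : 8 * S ≤ η * W := by
    have h1 := hL1 2 1 (by norm_num) (by norm_num)
    rw [pow_one] at h1
    have h2 : 8 * (h * T) ≤ η * W := by
      rw [hW, hη, one_div, inv_mul_eq_div, le_div_iff₀ hh0, le_div_iff₀ hL0]
      have h3 : 0 ≤ (h : ℝ) ^ 2 * L := by positivity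
      have h4 : 8 * ((h : ℝ) ^ 2 * L) ≤ T := by linarith
      have h5 := mul_le_mul_of_nonneg_right h4 hT0.le
      calc 8 * (h * T) * h * L = 8 * ((h : ℝ) ^ 2 * L) * T := by ring
        _ ≤ T * T := h5
    linarith
  have hMW : (1 - η) * W ≤ M := by rw [hM]; linarith
  have hM0 : 0 ≤ M := le_trans (by nlinarith) hMW
  have hn1 : 1 ≤ n := by
    have hI0 : 0 < I := by
      rw [hI]
      have : 0 < h := by omega
      have : 0 < l := by omega
      positivity
    rw [hn]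
    have h1 := hm1 0 hI0
    have h2 : m ((⟨0, hI0⟩ : Fin I) : ℕ) ≤ ∑ i : Fin I, m i :=
      Finset.single_le_sum (f := fun i : Fin I => m i) (fun i _ => Nat.zero_le _)
        (mem_univ (⟨0, hI0⟩ : Fin I))
    simp only at h2
    omega
  -- the family
  obtain ⟨B₀, hB1, hB2⟩ := famB hS (fun i : Fin I => PB (L + η * (i : ℕ)) η) (fun i => m i)
    (fun i => v i) M hM0 (by
      intro i p hp
      have h1 := mem_PB hp
      refine ⟨h1.1, h1.2.2.trans (Real.exp_le_exp.2 (le_of_eq ?_))⟩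
      rw [hv]
      ring) (by
      intro i j p hp hp'
      have h1 := mem_PB hp
      have h2 := mem_PB hp'
      have h3 := Real.exp_lt_exp.1 (h1.2.1.trans_le h2.2.2)
      have h4 := Real.exp_lt_exp.1 (h2.2.1.trans_le h1.2.2)
      have h5 : η * ((i : ℕ) : ℝ) < η * (((j : ℕ) + 1 : ℕ) : ℝ) := by
        push_cast
        linarith
      have h6 : η * ((j : ℕ) : ℝ) < η * (((i : ℕ) + 1 : ℕ) : ℝ) := by
        push_cast
        linarith
      have h7 := Nat.cast_lt.1 (lt_of_mul_lt_mul_left h5 hη0.le)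
      have h8 := Nat.cast_lt.1 (lt_of_mul_lt_mul_left h6 hη0.le)
      exact Fin.ext (by omega))
  rw [← hn] at hB1
  simp only [← hn, ← hSd] at hB2
  have hLl : Real.exp (l : ℝ) = T := by rw [hT, hL]
  -- the lower bound for the cardinality
  have hlow : Real.exp S * Real.exp ((2 - ε) * (T / L)) ≤ B₀.card := by
    refine le_trans ?_ hB1
    have h1 : ∏ i : Fin I, (Real.exp (m i * (1 - L - 4 * η) - (L + 1)) *
        (v i ^ m i * Real.exp (m i * v i))) ≤
        ∏ i : Fin I, ((PB (L + η * (i : ℕ)) η).card.choose (m i) : ℝ) := by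
      refine Finset.prod_le_prod (fun i _ => by have := hv0 i; positivity) fun i _ => ?_
      have h2 := hu₀ (L + η * (i : ℕ)) (by
        have : 0 ≤ η * ((i : ℕ) : ℝ) := by positivity
        linarith)
      have h3 : L + η * ((i : ℕ) : ℝ) + η = v i := by
        rw [hv]
        ring
      rw [h3] at h2
      refine blk hBI hη0 hη12 hl1 (hvL i) ?_ (hm1 i i.2) ?_ h2
      · have h4 : (h : ℝ) ≤ v i := by
          have h5 : (h : ℝ) ≤ 2400 * (h : ℝ) ^ 4 := by
            have h6 : (h : ℝ) ^ 1 ≤ (h : ℝ) ^ 4 := pow_le_pow_right₀ hh1 (by norm_num)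
            rw [pow_one] at h6
            have h7 : 0 ≤ (h : ℝ) ^ 4 := by positivity
            linarith
          exact (h5.trans hl24).trans (hvL i)
        calc (1 : ℝ) = η * h := hηh.symm
          _ ≤ η * v i := mul_le_mul_of_nonneg_left h4 hη0.le
      · rw [← hT]
        exact hmle i
    have h2 := fct hBI hη0 hη12 hl1 hn1 (by rw [← hT]; exact hs1) (M := M) (by
      rw [← hT, ← hW]
      exact hMW)
    have hfac : (0 : ℝ) < n.factorial := by exact_mod_cast Nat.factorial_pos n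
    have hvp : 0 < ∏ i : Fin I, v i ^ m i := Finset.prod_pos fun i _ => pow_pos (hv0 i) _
    have h3 : ∏ i : Fin I, (Real.exp (m i * (1 - L - 4 * η) - (L + 1)) *
        (v i ^ m i * Real.exp (m i * v i))) =
        Real.exp (n * (1 - L - 4 * η) - I * (L + 1)) * (∏ i : Fin I, v i ^ m i) * Real.exp S := by
      rw [Finset.prod_mul_distrib, Finset.prod_mul_distrib, ← Real.exp_sum, ← Real.exp_sum, ← hSd,
        ← mul_assoc]
      congr 3
      rw [Finset.sum_sub_distrib, ← Finset.sum_mul, Finset.sum_const, card_univ, Fintype.card_fin,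
        nsmul_eq_mul, hn]
      push_cast
      ring
    rw [h3] at h1
    have h4 : M ^ n / ((n.factorial : ℝ) * ∏ i : Fin I, v i ^ m i) =
        (M ^ n / n.factorial) * (∏ i : Fin I, v i ^ m i)⁻¹ := by
      field_simp
    rw [h4]
    have h5 : Real.exp (n * (1 - L - 4 * η) - I * (L + 1)) * (∏ i : Fin I, v i ^ m i) *
        Real.exp S * (Real.exp (n * (L + 1 - 2 * η) - (L + 1)) * (∏ i : Fin I, v i ^ m i)⁻¹) ≤
        (∏ i : Fin I, ((PB (L + η * (i : ℕ)) η).card.choose (m i) : ℝ)) *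
          ((M ^ n / n.factorial) * (∏ i : Fin I, v i ^ m i)⁻¹) := by
      refine mul_le_mul h1 (mul_le_mul_of_nonneg_right h2 (by positivity)) (by positivity)
        (Finset.prod_nonneg fun i _ => Nat.cast_nonneg _)
    refine le_trans ?_ h5
    have h6 : Real.exp (n * (1 - L - 4 * η) - I * (L + 1)) * (∏ i : Fin I, v i ^ m i) *
        Real.exp S * (Real.exp (n * (L + 1 - 2 * η) - (L + 1)) * (∏ i : Fin I, v i ^ m i)⁻¹) =
        Real.exp S * (Real.exp (n * (1 - L - 4 * η) - I * (L + 1)) *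
          Real.exp (n * (L + 1 - 2 * η) - (L + 1))) := by
      field_simp
    rw [h6, ← Real.exp_add (n * (1 - L - 4 * η) - I * (L + 1))]
    refine mul_le_mul_of_nonneg_left (Real.exp_le_exp.2 ?_) (Real.exp_pos _).le
    have h7 : n * (1 - L - 4 * η) - I * (L + 1) + (n * (L + 1 - 2 * η) - (L + 1)) =
        n * (2 - 6 * η) - (I + 1) * (L + 1) := by ring
    rw [h7]
    have hTL : 0 < T / L := by positivity
    have h8 : (I + 1) * (L + 1) ≤ η * (T / L) := by
      have h9 := hL1 3 3 (by norm_num) (by norm_num)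
      have h10 : ((I : ℝ) + 1) * (L + 1) ≤ 4 * (h : ℝ) ^ 2 * L ^ 2 := by
        rw [hIR]
        have h11 : 1 ≤ (h : ℝ) ^ 2 * L := by
          have : 1 ≤ (h : ℝ) ^ 2 := one_le_pow₀ hh1
          nlinarith
        calc ((h : ℝ) ^ 2 * L + 1) * (L + 1) ≤ (2 * ((h : ℝ) ^ 2 * L)) * (2 * L) :=
              mul_le_mul (by linarith) (by linarith) (by linarith) (by positivity)
          _ = 4 * (h : ℝ) ^ 2 * L ^ 2 := by ring
      refine h10.trans ?_
      rw [hη, one_div, inv_mul_eq_div, le_div_iff₀ hh0, le_div_iff₀ hL0]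
      have h12 : 0 ≤ (h : ℝ) ^ 3 * L ^ 3 := by positivity
      calc 4 * (h : ℝ) ^ 2 * L ^ 2 * h * L = 4 * ((h : ℝ) ^ 3 * L ^ 3) := by ring
        _ ≤ T := by linarith
    have h13' : (I : ℝ) ≤ η * (T / L) := by
      refine le_trans ?_ h8
      have : (0 : ℝ) ≤ I := Nat.cast_nonneg _
      nlinarith
    have h14 : (1 - 3 * η) * (T / L) ≤ n := by linarith
    have h15 : (1 - 3 * η) * (T / L) * (2 - 6 * η) ≤ n * (2 - 6 * η) :=
      mul_le_mul_of_nonneg_right h14 (by linarith)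
    have h16 : (2 - 12 * η) * (T / L) ≤ (1 - 3 * η) * (T / L) * (2 - 6 * η) := by
      nlinarith [mul_nonneg (sq_nonneg η) hTL.le]
    have h17 : (2 - ε) * (T / L) ≤ (2 - 13 * η) * (T / L) :=
      mul_le_mul_of_nonneg_right (by linarith) hTL.le
    nlinarith
  -- a subset of the right size
  obtain ⟨N, hN⟩ : ∃ N : ℕ, N = ⌈Real.exp S * Real.exp ((2 - ε) * (T / L))⌉₊ := ⟨_, rfl⟩
  have hNB : N ≤ B₀.card := by
    rw [hN]
    exact Nat.ceil_le.2 hlow
  obtain ⟨B, hBs, hBc⟩ := Finset.exists_subset_card_eq hNB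
  refine ⟨B, n, Real.exp S, ?_, Real.one_le_exp hS0, ?_, ?_, ?_⟩
  · rw [hLl, ← hL]
    exact hs1
  · rw [hLl, ← hL, hBc, hN]
    exact Nat.le_ceil _
  · rw [hBc, hTT, ← hL, ← hW]
    have h1 : (N : ℝ) ≤ Real.exp S * Real.exp ((2 - ε) * (T / L)) + 1 := by
      rw [hN]
      exact (Nat.ceil_lt_add_one (by positivity)).le
    refine h1.trans ?_
    have hTLT : T / L ≤ T := div_le_self hT0.le hl1
    have hTL : 0 < T / L := by positivity
    have h2 : (2 - ε) * (T / L) ≤ 2 * T := by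
      calc (2 - ε) * (T / L) ≤ 2 * (T / L) := mul_le_mul_of_nonneg_right (by linarith) hTL.le
        _ ≤ 2 * T := by linarith
    have h3 : Real.exp S * Real.exp ((2 - ε) * (T / L)) ≤ Real.exp ((h + 2) * T) := by
      rw [← Real.exp_add]
      refine Real.exp_le_exp.2 ?_
      linarith
    have h4 : Real.exp ((h + 2) * T) + 1 ≤ Real.exp ((h + 3) * T) := by
      have h5 : Real.exp ((h + 3) * T) = Real.exp ((h + 2) * T) * Real.exp T := by
        rw [← Real.exp_add]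
        ring_nf
      have h6 : 1 ≤ Real.exp ((h + 2) * T) := Real.one_le_exp (by positivity)
      have hT2 : 1 ≤ T := by
        rw [hT]
        exact Real.one_le_exp hL0.le
      have h7 : 2 ≤ Real.exp T := by
        have := Real.add_one_le_exp T
        linarith
      rw [h5]
      nlinarith
    refine le_trans (by linarith) (h4.trans (Real.exp_le_exp.2 ?_))
    have h8 := hL1 2 1 (by norm_num) (by norm_num)
    rw [pow_one] at h8
    have h9 : (h + 3) * T ≤ 13 * η * W := by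
      rw [hW, hη]
      have h10 : 13 * (1 / (h : ℝ)) * (T * T / L) = 13 * T * T / (h * L) := by
        field_simp
      rw [h10, le_div_iff₀ (by positivity)]
      have h11 : ((h : ℝ) + 3) * (h * L) ≤ 13 * T := by
        have h12 : 0 ≤ (h : ℝ) ^ 2 * L := by positivity
        have h13'' : ((h : ℝ) + 3) * (h * L) ≤ 4 * ((h : ℝ) ^ 2 * L) := by
          have : 0 ≤ (h : ℝ) * L := by positivity
          nlinarith
        linarith
      calc ((h : ℝ) + 3) * T * (h * L) = ((h : ℝ) + 3) * (h * L) * T := by ring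
        _ ≤ 13 * T * T := mul_le_mul_of_nonneg_right h11 hT0.le
    exact h9.trans (mul_le_mul_of_nonneg_right h13 hW0.le)
  · intro b hb
    obtain ⟨g1, g2, g3, g4, g5⟩ := hB2 b (hBs hb)
    refine ⟨g1, g2, ?_, g4, ?_⟩
    · intro p hp
      obtain ⟨⟨i, hi⟩, hp8⟩ := g3 p hp
      refine ⟨lt_of_le_of_lt (Real.exp_le_exp.2 ?_) (mem_PB hi).2.1, hp8⟩
      rw [← hL]
      have : 0 ≤ η * ((i : ℕ) : ℝ) := by positivity
      linarith
    · refine g5.trans (Real.exp_le_exp.2 (le_of_eq ?_))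
      rw [hTT, ← hL, ← hW, hM]
      ring

end Pool.Agent.D0H8.AB
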