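import Pool.Agent.D0H61.AB.Stm

/-!
# The second moment (module 14 LOC of the project AB)
-/

set_option autoImplicit false

namespace Pool.Agent.D0H8.AB

open Finset MeasureTheory Pool.Agent.D0H61.AB

theorem rad_mul_le {a b : ℕ} (ha : a ≠ 0) (hb : b ≠ 0) : rad (a * b) ≤ rad a * rad b := by
  classical
  rw [rad, rad, rad, Nat.primeFactors_mul ha hb, ← Finset.prod_union_inter]
  refine Nat.le_mul_of_pos_right _ (Finset.prod_pos fun p hp => ?_)
  exact (Nat.prime_of_mem_primeFactors (mem_inter.1 hp).1).pos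

theorem rad_prime_pow_le {p : ℕ} (hp : p.Prime) (t : ℕ) : rad (p ^ t) ≤ p := by
  rcases Nat.eq_zero_or_pos t with rfl | ht
  · simpa [rad] using hp.one_lt.le
  · rw [rad, Nat.primeFactors_prime_pow ht.ne' hp, Finset.prod_singleton]

theorem rad_le {r : ℕ} (hr : 0 < r) : rad r ≤ r := by
  rw [rad]
  exact Nat.le_of_dvd hr (Nat.prod_primeFactors_dvd r)

theorem rad_pos (r : ℕ) : 0 < rad r := by
  rw [rad]
  exact Finset.prod_pos fun p hp => (Nat.prime_of_mem_primeFactors hp).pos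

/-- `V c ≤ 2 e ^ l / l` if `log c ≤ 4 e ^ (2 l) / l`. -/
theorem V_le {c L : ℝ} (hL : 1 ≤ L) (hc : 16 ≤ c)
    (hcU : Real.log c ≤ 4 * (Real.exp (2 * L) / L)) : V c ≤ 2 * Real.exp L / L := by
  have hL0 : 0 < L := by linarith
  obtain ⟨U, hU⟩ : ∃ U : ℝ, U = 4 * (Real.exp (2 * L) / L) := ⟨_, rfl⟩
  rw [← hU] at hcU
  have h1 : Real.exp 1 ≤ Real.log c := by
    rw [Real.le_log_iff_exp_le (by linarith)]
    have h2 : Real.exp (Real.exp 1) ≤ Real.exp (2.75 : ℝ) :=
      Real.exp_le_exp.2 (by have := Real.exp_one_lt_d9; linarith)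
    have h3 : Real.exp (2.75 : ℝ) ≤ 16 := by
      have h4 : (2.75 : ℝ) ≤ Real.log 16 := by
        have h5 : Real.log 16 = 4 * Real.log 2 := by
          rw [show (16 : ℝ) = 2 ^ 4 by norm_num, Real.log_pow]
          norm_num
        have := Real.log_two_gt_d9
        rw [h5]
        linarith
      exact (Real.le_log_iff_exp_le (by norm_num)).1 h4
    exact (h2.trans h3).trans hc
  have he : 1 < Real.exp 1 := Real.one_lt_exp_iff.2 one_pos
  have h6 : Real.exp L ≤ U := by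
    rw [hU]
    have h7 : Real.exp (2 * L) = Real.exp L * Real.exp L := by
      rw [← Real.exp_add]
      ring_nf
    have h8 : L ≤ Real.exp L := by
      have := Real.add_one_le_exp L
      linarith
    rw [h7, ← mul_div_assoc, le_div_iff₀ hL0]
    nlinarith [mul_le_mul_of_nonneg_left h8 (Real.exp_pos L).le, Real.exp_pos L]
  have hU0 : 0 < U := (Real.exp_pos L).trans_le h6
  have h9 : L ≤ Real.log U := by
    rw [Real.le_log_iff_exp_le hU0]
    exact h6
  have ha0 : 0 < Real.log c := by linarith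
  have h10 := Real.log_div_self_antitoneOn (show Real.log c ∈ Set.Ici (Real.exp 1) from h1)
    (show U ∈ Set.Ici (Real.exp 1) from h1.trans hcU) hcU
  simp only at h10
  have hla : 0 < Real.log (Real.log c) := Real.log_pos (by linarith)
  have h11 : Real.log c / Real.log (Real.log c) ≤ U / L := by
    have h12 : L / U ≤ Real.log (Real.log c) / Real.log c :=
      le_trans (div_le_div_of_nonneg_right h9 hU0.le) h10
    rw [div_le_div_iff₀ hU0 ha0] at h12
    rw [div_le_div_iff₀ hla hL0]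
    linarith
  rw [V]
  refine Real.sqrt_le_iff.2 ⟨by positivity, h11.trans (le_of_eq ?_)⟩
  rw [hU]
  have h7 : Real.exp (2 * L) = Real.exp L * Real.exp L := by
    rw [← Real.exp_add]
    ring_nf
  rw [h7]
  field_simp
  ring

theorem meas_Gd (k : ℕ) (s : ℝ) (b : ℕ) : MeasurableSet (Gd k s b) := by
  have h1 : Gd k s b = ⋃ c ∈ {c : ℕ | 0 < c ∧ 2 ^ k ∣ c ∧ Nat.Coprime b c},
      {α : ℝ | |α * b + s - c| ≤ 1} := by
    ext α
    simp only [Gd, Set.mem_setOf_eq, Set.mem_iUnion, exists_prop]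
    constructor
    · rintro ⟨c, h2, h3, h4, h5⟩
      exact ⟨c, ⟨h2, h3, h4⟩, h5⟩
    · rintro ⟨c, ⟨h2, h3, h4⟩, h5⟩
      exact ⟨c, h2, h3, h4, h5⟩
  rw [h1]
  refine MeasurableSet.biUnion (Set.to_countable _) fun c _ => ?_
  exact (isClosed_le (by fun_prop) continuous_const).measurableSet

theorem Gd_sub (k : ℕ) (s : ℝ) (b : ℕ) : Gd k s b ⊆ Dv k s b := by
  rintro α ⟨c, -, ⟨r, hr⟩, -, h⟩
  refine ⟨r, ?_⟩
  have h1 : (c : ℝ) = 2 ^ k * (r : ℝ) := by
    rw [hr]
    push_cast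
    ring
  rw [h1] at h
  exact_mod_cast h

/-- The second moment method with the numbers used here. -/
theorem moment (hPZ : S_PZ) {x y δ C R : ℝ} {B : Finset ℕ} {A : ℕ → Set ℝ} {g : ℕ → ℕ → ℝ}
    (hxy : x < y) (hA : ∀ b ∈ B, MeasurableSet (A b)) (hC : 0 < C) (hδ : 0 < δ)
    (hB : 0 < (B.card : ℝ)) (hg : ∀ b b', 0 ≤ g b b')
    (h1 : ∀ b ∈ B, ENNReal.ofReal ((y - x) * δ / 8) ≤ volume (Set.Icc x y ∩ A b))
    (h2 : ∀ b ∈ B, ∀ b' ∈ B, volume (Set.Icc x y ∩ A b ∩ A b') ≤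
      ENNReal.ofReal (C * (y - x) * (δ * g b b' + δ ^ 2)))
    (h3 : ∀ b ∈ B, ∑ b' ∈ B, g b b' ≤ R) (hR : R ≤ B.card * δ) :
    ENNReal.ofReal ((y - x) / (128 * C)) ≤ volume (Set.Icc x y ∩ ⋃ b ∈ B, A b) := by
  have hfin : ∀ S : Set ℝ, volume (Set.Icc x y ∩ S) ≠ ⊤ := fun S =>
    ne_top_of_le_ne_top (by rw [Real.volume_Icc]; exact ENNReal.ofReal_ne_top)
      (measure_mono Set.inter_subset_left)
  have h4 := hPZ x y ℕ B A hxy hA
  obtain ⟨W, hW⟩ : ∃ W : ℝ, W = (volume (Set.Icc x y ∩ ⋃ b ∈ B, A b)).toReal := ⟨_, rfl⟩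
  rw [ENNReal.ofReal_le_iff_le_toReal (hfin _), ← hW]
  rw [← hW] at h4
  have hW0 : 0 ≤ W := by
    rw [hW]
    exact ENNReal.toReal_nonneg
  have hd : 0 < y - x := by linarith
  have h5 : (B.card : ℝ) * ((y - x) * δ / 8) ≤ ∑ b ∈ B, (volume (Set.Icc x y ∩ A b)).toReal := by
    rw [← nsmul_eq_mul]
    refine Finset.card_nsmul_le_sum _ _ _ fun b hb => ?_
    exact (ENNReal.ofReal_le_iff_le_toReal (hfin _)).1 (h1 b hb)
  have h6 : ∑ b ∈ B, ∑ b' ∈ B, (volume (Set.Icc x y ∩ A b ∩ A b')).toReal ≤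
      2 * C * (y - x) * ((B.card : ℝ) * δ) ^ 2 := by
    calc ∑ b ∈ B, ∑ b' ∈ B, (volume (Set.Icc x y ∩ A b ∩ A b')).toReal
        ≤ ∑ b ∈ B, ∑ b' ∈ B, C * (y - x) * (δ * g b b' + δ ^ 2) := by
          refine Finset.sum_le_sum fun b hb => Finset.sum_le_sum fun b' hb' => ?_
          refine ENNReal.toReal_le_of_le_ofReal ?_ (h2 b hb b' hb')
          have := hg b b'
          positivity
      _ = ∑ b ∈ B, C * (y - x) * (δ * ∑ b' ∈ B, g b b' + B.card * δ ^ 2) := by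
          refine Finset.sum_congr rfl fun b _ => ?_
          rw [← Finset.mul_sum, Finset.sum_add_distrib, ← Finset.mul_sum, Finset.sum_const,
            nsmul_eq_mul]
      _ ≤ ∑ b ∈ B, C * (y - x) * (δ * (B.card * δ) + B.card * δ ^ 2) := by
          refine Finset.sum_le_sum fun b hb => ?_
          refine mul_le_mul_of_nonneg_left ?_ (by positivity)
          have := mul_le_mul_of_nonneg_left ((h3 b hb).trans hR) hδ.le
          linarith
      _ = 2 * C * (y - x) * ((B.card : ℝ) * δ) ^ 2 := by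
          rw [Finset.sum_const, nsmul_eq_mul]
          ring
  have h7 : ((B.card : ℝ) * ((y - x) * δ / 8)) ^ 2 ≤
      W * (2 * C * (y - x) * ((B.card : ℝ) * δ) ^ 2) := by
    refine le_trans ?_ (h4.trans (mul_le_mul_of_nonneg_left h6 hW0))
    exact pow_le_pow_left₀ (by positivity) h5 2
  have h8 : 0 < (y - x) * ((B.card : ℝ) * δ) ^ 2 := by positivity
  rw [div_le_iff₀ (by positivity)]
  have h9 : (y - x) * ((y - x) * ((B.card : ℝ) * δ) ^ 2) ≤
      (W * (128 * C)) * ((y - x) * ((B.card : ℝ) * δ) ^ 2) := by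
    have h10 : (y - x) * ((y - x) * ((B.card : ℝ) * δ) ^ 2) =
        64 * ((B.card : ℝ) * ((y - x) * δ / 8)) ^ 2 := by ring
    have h11 : (W * (128 * C)) * ((y - x) * ((B.card : ℝ) * δ) ^ 2) =
        64 * (W * (2 * C * (y - x) * ((B.card : ℝ) * δ) ^ 2)) := by ring
    rw [h10, h11]
    linarith
  exact le_of_mul_le_mul_right h9 h8

end Pool.Agent.D0H8.AB
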